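import Pool.Agent.H.MP_b542c4_co.Basic
import Pool.Agent.Lib.helper1.Cfg

set_option autoImplicit false

namespace Pool.Agent.H.MP_8aa8ea_co
open Pool.Agent.H.MP_b542c4_co (mem_line)
open Pool.Agent.Lib.helper1.Cfg (third)

abbrev Z := Fin 10

def lines : Z → List Z :=
  ![[0, 1, 7], [1, 2, 4], [2, 3, 5], [3, 4, 6], [4, 5, 7], [5, 6, 8], [6, 7, 9], [3, 8, 0],
    [8, 9, 1], [9, 0, 2]]

def Inc (p l : Z) : Prop := p ∈ lines l

instance (p l : Z) : Decidable (Inc p l) := by unfold Inc; infer_instance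

def T (p : Z) : ℤ × ℤ :=
  [(0, 0), (4, 4), (4, 0), (12, 2), (4, -2), (-4, -2), (0, -4), (-2, -2), (-6, -1),
    (-4, 0)].getD p.val 0

def la (l : Z) : Z := (lines l).getD 0 0
def lb (l : Z) : Z := (lines l).getD 1 0

def det (p l : Z) : ℤ :=
  ((T p).1 - (T (la l)).1) * ((T (lb l)).2 - (T (la l)).2) -
    ((T p).2 - (T (la l)).2) * ((T (lb l)).1 - (T (la l)).1)

theorem sepL : ∀ l l' : Z, l ≠ l' → ∃ p, Inc p l ∧ ¬ Inc p l' := by decide +kernel
theorem lab : ∀ l : Z, la l ≠ lb l ∧ Inc (la l) l ∧ Inc (lb l) l := by decide +kernel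
theorem T_inj : Function.Injective T := by decide +kernel
theorem T_det : ∀ p l, det p l = 0 ↔ Inc p l := by decide +kernel

noncomputable def PA (p : Z) : ℂ := ⟨(T p).1, (T p).2⟩
noncomputable def LA (l : Z) : AffineSubspace ℝ ℂ := line[ℝ, PA (la l), PA (lb l)]

theorem realA : Function.Injective PA ∧ Function.Injective LA ∧
    (∀ l, Module.finrank ℝ (LA l).direction = 1) ∧ ∀ p l, PA p ∈ LA l ↔ Inc p l := by
  have h1 : Function.Injective PA := fun p q h => by
    apply T_inj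
    have a := congrArg Complex.re h
    have b := congrArg Complex.im h
    exact Prod.ext (Int.cast_injective (α := ℝ) a) (Int.cast_injective (α := ℝ) b)
  have h4 : ∀ p l, PA p ∈ LA l ↔ Inc p l := fun p l => by
    rw [LA, mem_line _ _ _ (h1.ne (lab l).1), ← T_det, ← Int.cast_eq_zero (α := ℝ)]
    simp [PA, det]
  refine ⟨h1, fun l l' h => ?_, fun l => ?_, h4⟩
  · by_contra hne
    obtain ⟨p, a, b⟩ := sepL l l' hne
    exact b ((h4 p l').1 (h ▸ (h4 p l).2 a))
  · rw [LA, direction_affineSpan, vectorSpan_pair]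
    exact finrank_span_singleton (vsub_ne_zero.2 (h1.ne (lab l).1))

theorem cfg1 : ∀ l, (Finset.univ.filter fun p => Inc p l).card = 3 := by decide +kernel
theorem cfg2 : ∀ p, (Finset.univ.filter fun l => Inc p l).card = 3 := by decide +kernel
theorem cfg3 : ∀ p q, p ≠ q → (Finset.univ.filter fun l => Inc p l ∧ Inc q l).card ≤ 1 := by
  decide +kernel

def e0 : Z → Z := ![0, 2, 4, 5, 3, 6, 8, 7, 9, 1]
def f0 : Z → Z := ![0, 9, 1, 4, 2, 3, 5, 7, 6, 8]
theorem ef : ∀ x, e0 (f0 x) = x ∧ f0 (e0 x) = x := by decide +kernel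
theorem ef_dual : ∀ p l, Inc p l ↔ Inc (e0 l) (f0 p) := by decide +kernel

/-- combinatorially possible collinear triple -/
def Tri (a b c : Z) : Prop := a ≠ b ∧ a ≠ c ∧ b ≠ c ∧
  ∀ l, (Inc a l → Inc b l → Inc c l) ∧ (Inc a l → Inc c l → Inc b l) ∧ (Inc b l → Inc c l → Inc a l)

instance (a b c : Z) : Decidable (Tri a b c) := by unfold Tri; infer_instance

def t (a b : Z) : Z := ((List.finRange 10).find? fun c => decide (Tri a b c)).getD 0

theorem tri_t : ∀ a b c, Tri a b c → c = t a b := by decide +kernel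

def G (a b c : Z) : Z → Z :=
  ![a, b, c, t c (t a (t b c)), t b (t c (t a (t b c))), t c (t b (t c (t a (t b c)))),
    t (t a b) (t b c), t a (t b c), t a b, t b c]

def W (e : Z → Z) : Prop := ∃ a b c l0, Tri (e a) (e b) (e c) ∧ Inc (e a) l0 ∧ Inc (e b) l0 ∧
  Inc (e a) a ∧ Inc (e b) b ∧ Inc (e c) c ∧ ¬ Inc (e a) b ∧ ∃ w, w ≠ a ∧ Inc (e w) a ∧ Inc (e a) w ∧
    ∃ q, ¬ Inc (e q) q ∧ ¬ Inc (e q) a ∧ ∃ u v, u ≠ v ∧ Inc (e u) q ∧ Inc (e q) u ∧
      Inc (e v) q ∧ Inc (e q) v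

instance (e : Z → Z) : Decidable (W e) := by unfold W; infer_instance

def pen : Z → Z × Z × Z :=
  ![(0, 7, 9), (0, 1, 8), (1, 2, 9), (2, 3, 7), (1, 3, 4), (2, 4, 5), (3, 5, 6), (0, 4, 6),
    (5, 7, 8), (6, 8, 9)]

theorem pen_ok : ∀ x, (pen x).1 ≠ (pen x).2.1 ∧ (pen x).1 ≠ (pen x).2.2 ∧ (pen x).2.1 ≠ (pen x).2.2 ∧
    Inc x (pen x).1 ∧ Inc x (pen x).2.1 ∧ Inc x (pen x).2.2 := by decide +kernel

theorem cls0 : ∀ a b, Tri a b (t a b) → ∀ c, Tri b c (t b c) → Function.Injective (G a b c) →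
    (∀ x, Tri (G a b c (pen x).1) (G a b c (pen x).2.1) (G a b c (pen x).2.2)) → (a, b, c) ∈ [(0, 2, 4), (1, 7, 6), (9, 8, 3)] := by
  decide +kernel

theorem cls1 : ∀ x ∈ [((0 : Z), (2 : Z), (4 : Z)), (1, 7, 6), (9, 8, 3)], W (G x.1 x.2.1 x.2.2) := by
  decide +kernel

theorem cls (e : Z → Z) (hi : Function.Injective e)
    (h : ∀ x a b c, a ≠ b → a ≠ c → b ≠ c → Inc x a → Inc x b → Inc x c → Tri (e a) (e b) (e c)) :
    W e := by
  have k : ∀ x a b c, (a ≠ b ∧ a ≠ c ∧ b ≠ c ∧ Inc x a ∧ Inc x b ∧ Inc x c) →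
      Tri (e a) (e b) (e c) := fun x a b c H => h x a b c H.1 H.2.1 H.2.2.1 H.2.2.2.1 H.2.2.2.2.1
        H.2.2.2.2.2
  have h8 := tri_t _ _ _ (k 1 0 1 8 (by decide))
  have h9 := tri_t _ _ _ (k 2 1 2 9 (by decide))
  have h6 := tri_t _ _ _ (k 9 8 9 6 (by decide))
  have h7 := tri_t _ _ _ (k 0 0 9 7 (by decide))
  have h3 := tri_t _ _ _ (k 3 2 7 3 (by decide))
  have h4 := tri_t _ _ _ (k 4 1 3 4 (by decide))
  have h5 := tri_t _ _ _ (k 5 2 4 5 (by decide))
  have he : G (e 0) (e 1) (e 2) = e := by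
    unfold G
    rw [← h9, ← h8, ← h7, ← h6, ← h3, ← h4, ← h5]
    ext i
    fin_cases i <;> rfl
  have := cls1 _ (cls0 (e 0) (e 1) (h8 ▸ k 1 0 1 8 (by decide)) (e 2) (h9 ▸ k 2 1 2 9 (by decide))
    (by rw [he]; exact hi) (by rw [he]; exact fun x => k x _ _ _ (pen_ok x)))
  rwa [he] at this

theorem aff3 {α β γ : ℝ} {u v w : ℂ} (z : ℂ) (h1 : α * u.re + β * u.im + γ = 0)
    (h2 : α * v.re + β * v.im + γ = 0) (h3 : α * w.re + β * w.im + γ = 0)
    (hd : (w.re - u.re) * (v.im - u.im) - (w.im - u.im) * (v.re - u.re) ≠ 0) :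
    α * z.re + β * z.im + γ = 0 := by
  have a : α = 0 := by
    apply mul_left_cancel₀ hd
    linear_combination (w.im - v.im) * h1 + (u.im - w.im) * h2 + (v.im - u.im) * h3
  have b : β = 0 := by
    apply mul_left_cancel₀ hd
    linear_combination (v.re - w.re) * h1 + (w.re - u.re) * h2 + (u.re - v.re) * h3
  rw [a, b] at h1 ⊢
  linarith

theorem inner_c (x y : ℂ) : inner ℝ x y = x.re * y.re + x.im * y.im := by
  simp [Complex.inner]
  ring

theorem main (P : Z → ℂ) (L : Z → AffineSubspace ℝ ℂ) (h1 : Function.Injective P)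
    (h3 : ∀ l, Module.finrank ℝ (L l).direction = 1) (h4 : ∀ p l, P p ∈ L l ↔ Inc p l)
    (c : ℂ) (ρ : ℝ) (hρ : 0 < ρ) (h : ℂ ≃ᵢ ℂ)
    (hh : ∀ p, ∃ q, (∃ l, ∀ z, z ∈ L l ↔ inner ℝ (z - c) (q - c) = ρ ^ 2) ∧ h q = P p) : False := by
  choose q hq hq2 using hh
  choose d hd using hq
  simp only [inner_c, Complex.sub_re, Complex.sub_im] at hd
  have hdi : Function.Injective d := fun p p' hp => by
    obtain ⟨n, x, y⟩ := lab (d p)
    have a1 := (hd p _).1 ((h4 _ _).2 x)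
    have a2 := (hd p _).1 ((h4 _ _).2 y)
    rw [hp] at x y n a1 a2
    have b1 := (hd p' _).1 ((h4 _ _).2 x)
    have b2 := (hd p' _).1 ((h4 _ _).2 y)
    have n' := h1.ne n
    generalize P (la (d p')) = u at *
    generalize P (lb (d p')) = v at *
    have D : (u.re - c.re) * (v.im - c.im) - (u.im - c.im) * (v.re - c.re) ≠ 0 := fun D => by
      apply n'
      have r0 : ρ ^ 2 ≠ 0 := by positivity
      apply Complex.ext
      · apply mul_left_cancel₀ r0
        linear_combination (v.re - c.re) * a1 - (u.re - c.re) * a2 + ((q p).im - c.im) * D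
      · apply mul_left_cancel₀ r0
        linear_combination (v.im - c.im) * a1 - (u.im - c.im) * a2 - ((q p).re - c.re) * D
    apply h1
    rw [← hq2, ← hq2]
    congr 1
    apply Complex.ext
    · apply mul_left_cancel₀ D
      linear_combination (v.im - c.im) * (a1 - b1) - (u.im - c.im) * (a2 - b2)
    · apply mul_left_cancel₀ D
      linear_combination (u.re - c.re) * (a2 - b2) - (v.re - c.re) * (a1 - b1)
  obtain ⟨e, he1, he2⟩ : ∃ e : Z → Z, (∀ l, d (e l) = l) ∧ Function.Injective e := by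
    let E := Equiv.ofBijective d hdi.bijective_of_finite
    exact ⟨E.symm, E.apply_symm_apply, E.symm.injective⟩
  obtain ⟨a1, a2, a3, b1, b2, b3, hk⟩ : ∃ a1 a2 a3 b1 b2 b3 : ℝ, ∀ z : ℂ,
      (h.symm z).re = a1 * z.re + a2 * z.im + a3 ∧ (h.symm z).im = b1 * z.re + b2 * z.im + b3 := by
    set A := h.symm.toRealLinearIsometryEquiv
    refine ⟨(A 1).re, (A Complex.I).re, (h.symm 0).re, (A 1).im, (A Complex.I).im, (h.symm 0).im,
      fun z => ?_⟩
    have e1 : h.symm z = z.re • A 1 + z.im • A Complex.I + h.symm 0 := by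
      rw [← map_smul, ← map_smul, ← map_add]
      have : z.re • (1 : ℂ) + z.im • Complex.I = z := by
        apply Complex.ext <;> simp
      rw [this, IsometryEquiv.toRealLinearIsometryEquiv_apply, sub_add_cancel]
    rw [e1]
    constructor <;> simp <;> ring
  set B : ℂ → ℂ → ℝ := fun x y => (x.re - c.re) * (a1 * y.re + a2 * y.im + a3 - c.re) +
    (x.im - c.im) * (b1 * y.re + b2 * y.im + b3 - c.im) - ρ ^ 2 with hBd
  have hB : ∀ x l, B (P x) (P (e l)) = 0 ↔ Inc x l := fun x l => by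
    have : q (e l) = h.symm (P (e l)) := by rw [← hq2, h.symm_apply_apply]
    have k := hd (e l) (P x)
    rw [he1, h4, this, (hk _).1, (hk _).2] at k
    rw [k, hBd, sub_eq_zero]
  have ncol : ∀ u v w l, u ≠ v → Inc u l → Inc v l → ¬ Inc w l →
      ((P w).re - (P u).re) * ((P v).im - (P u).im) -
        ((P w).im - (P u).im) * ((P v).re - (P u).re) ≠ 0 := fun u v w l n x y z D =>
    z ((h4 _ _).1 (affineSpan_pair_le_of_mem_of_mem ((h4 _ _).2 x) ((h4 _ _).2 y)
      ((mem_line _ _ _ (h1.ne n)).2 D)))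
  have out : ∀ x : Z, ∃ m, ¬ Inc x m := by decide
  have hT : ∀ x a b c l, e a ≠ e b → Inc x a → Inc x b → Inc x c → Inc (e a) l → Inc (e b) l →
      Inc (e c) l := fun x a b c' l n ia ib ic ja jb => by
    by_contra hn
    obtain ⟨m, hm⟩ := out x
    apply hm
    rw [← hB] at ia ib ic ⊢
    have := aff3 (α := ((P x).re - c.re) * a1 + ((P x).im - c.im) * b1)
      (β := ((P x).re - c.re) * a2 + ((P x).im - c.im) * b2)
      (γ := ((P x).re - c.re) * (a3 - c.re) + ((P x).im - c.im) * (b3 - c.im) - ρ ^ 2)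
      (P (e m)) (by linear_combination ia) (by linear_combination ib) (by linear_combination ic)
      (ncol _ _ _ l n ja jb hn)
    linear_combination this
  obtain ⟨a, b, c', l0, tr, ia0, ib0, ia, ib, ic, nab, w, wa, w1, w2, s, ns, nsa, u, v, uv, u1, u2,
    v1, v2⟩ := cls e he2 fun x a b c' ab ac bc ia ib ic =>
      ⟨he2.ne ab, he2.ne ac, he2.ne bc, fun l => ⟨hT x a b c' l (he2.ne ab) ia ib ic,
        hT x a c' b l (he2.ne ac) ia ic ib, hT x b c' a l (he2.ne bc) ib ic ia⟩⟩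
  have sym : ∀ y u v w : ℂ, B u y = B y u → B v y = B y v → B w y = B y w →
      (w.re - u.re) * (v.im - u.im) - (w.im - u.im) * (v.re - u.re) ≠ 0 → ∀ z, B z y = B y z :=
    fun y u v w x1 x2 x3 D z => by
      have := aff3 (α := (a1 * y.re + a2 * y.im + a3 - c.re) - ((y.re - c.re) * a1 + (y.im - c.im) * b1))
        (β := (b1 * y.re + b2 * y.im + b3 - c.im) - ((y.re - c.re) * a2 + (y.im - c.im) * b2))
        (γ := -c.re * (a1 * y.re + a2 * y.im + a3 - c.re) - c.im * (b1 * y.re + b2 * y.im + b3 - c.im)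
          - ((y.re - c.re) * (a3 - c.re) + (y.im - c.im) * (b3 - c.im))) z
        (by linear_combination x1) (by linear_combination x2) (by linear_combination x3) D
      linear_combination this
  have s1 := sym (P (e s)) (P (e u)) (P (e v)) (P (e s))
    (((hB _ _).2 u1).trans ((hB _ _).2 u2).symm) (((hB _ _).2 v1).trans ((hB _ _).2 v2).symm) rfl
    (ncol _ _ _ s (he2.ne uv) u1 v1 ns) (P (e a))
  have s2 := sym (P (e a)) (P (e w)) (P (e a)) (P (e s))
    (((hB _ _).2 w1).trans ((hB _ _).2 w2).symm) rfl s1.symm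
    (ncol _ _ _ a (he2.ne wa) w1 ia nsa) (P (e b))
  obtain ⟨r, hr⟩ := third (h3 l0) (h1.ne tr.1) ((h4 _ _).2 ia0) ((h4 _ _).2 ib0)
    ((h4 _ _).2 ((tr.2.2.2 l0).1 ia0 ib0))
  have r0 : r ≠ 0 := by
    rintro rfl
    exact tr.2.1 (h1 (by simpa using hr.symm))
  have r1 : 1 - r ≠ 0 := fun h => by
    have : r = 1 := by linarith
    subst this
    exact tr.2.2.1 (h1 (by simpa using hr.symm))
  apply nab
  rw [← hB] at ia ib ic ⊢
  have cr : (P (e c')).re = (P (e a)).re + r * ((P (e b)).re - (P (e a)).re) := by rw [hr]; simp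
  have ci : (P (e c')).im = (P (e a)).im + r * ((P (e b)).im - (P (e a)).im) := by rw [hr]; simp
  apply mul_left_cancel₀ (mul_ne_zero two_ne_zero (mul_ne_zero r0 r1))
  simp only [hBd] at ia ib ic s2 ⊢
  rw [cr, ci] at ic
  linear_combination ic - (1 - r) ^ 2 * ia - r ^ 2 * ib - r * (1 - r) * s2

end Pool.Agent.H.MP_8aa8ea_co
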